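import Pool.Agent.Mg.F1c689d.Gd35ace

set_option autoImplicit false

open Pool.Agent.MP_1c689d_ag

/-- Coniveau one for the quotients `Y = X / H` of Fermat-type complete intersections
`X ⊆ ℙ^(n+r)` of `r` hypersurfaces of prime degree `p`, with `K_X = O(m)`, `m ≤ 1`:
if `h^{n,0}(Y) = 0`, all positive-degree rational cohomology dies on a dense Zariski open set. -/
theorem Pool.Agent.Results.MP_1c689d_ag.FermatQuotients.result
    (p : ℕ) [NeZero p] (hp : p.Prime) (n r : ℕ) (hn : 1 ≤ n) (hL : p * r ≤ n + r + 2)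
    (M : Matrix (Fin r) (Fin (n + r + 1)) ℂ)
    (hM : ∀ f : Fin r → Fin (n + r + 1), Function.Injective f → (M.submatrix id f).det ≠ 0)
    (H : AddSubgroup (Fin (n + r + 1) → ZMod p)) (hH : NoForm p M H n) :
    ∃ (Q : MvPolynomial (Fin (n + r + 1)) ℂ) (d : ℕ), Q.IsHomogeneous d ∧
      Dense (Zopen p M H Q) ∧ ∀ i, RestrictionZero (Zopen p M H Q) i :=
  main_form hp hM hn (by simp; omega) (by simp; omega) hH
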