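import Pool.Agent.Mg.F1c689d.Gb5e6c1

set_option autoImplicit false

open Pool.Agent.MP_1c689d_ag Pool.Agent.MP_1c689d_ag.K0

/-- Coniveau one for `H³` of a resolution `Y` of an arithmetically Cohen-Macaulay threefold `Y'`
with isolated singularities, `p_g = 0`, `K · H² = 0`, no vector field and no reflexive two-form. -/
theorem Pool.Agent.Results.MP_1c689d_ag.KodairaZero.result {N c' r' m c r : ℕ}
    (Q' : PD N 4 c' r') (Q : PD m 4 c r) (Pts : Finset (Fin 4 → ℂ))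
    (π : (Fin N → ℂ) → Fin m → ℂ) (ϱ : (Fin m → ℂ) → Fin N → ℂ) (hS' : Q'.Sm0 ∅)
    (hd : ∀ i, Q'.b.dg i ≤ 3) (hN : Num Q) (hS : Q.Sm0 Pts) (h0 : Q.H0) (h2 : Q.H2)
    (hB : Bir Q' Q Pts π ϱ) :
    ∃ (f : P N) (d : ℕ), f.IsHomogeneous d ∧ (Q'.Zo f).Nonempty ∧ Dense (Q'.Zo f) ∧
      RestrictionZero (Q'.Zo f) 2 :=
  final Q' Q Pts π ϱ hS' hd hN hS h0 h2 hB
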