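import Pool.Agent.Mg.F1c689d.G0ddaf7

set_option autoImplicit false

open Pool.Agent.MP_1c689d_ag Pool.Agent.MP_1c689d_ag.FP Pool.Agent.MP_1c689d_ag.SX

/-- Coniveau one for `H³` of every smooth projective threefold `Y` with `h^{3,0}(Y) = 0` that is
dominated, compatibly with a fibration over `ℙ¹` and with the two-form of the generic fibre, by a
family of double planes branched along six lines. -/
theorem Pool.Agent.Results.MP_1c689d_ag.SixLines.result
    {F L : Type} [Field F] [Algebra ℂ F] [Field L] [Algebra ℂ L] {N : ℕ} (ξ : Fin (N + 1) → F)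
    (hY : IsSmoothModel ξ) (hpg : NoRegForm ξ 3) (ι : F →ₐ[ℂ] L) (s a b φ : F) (u v z : L)
    (ℓ : Fin 6 → Fin 3 → L) (H : SixLines (ι s) u v z ℓ)
    (hgen : IntermediateField.adjoin ℂ ({ι s, u, v, z} ∪ Set.range (Function.uncurry ℓ)) = ⊤)
    (hle : ∀ x, ι x ∈ IntermediateField.adjoin ℂ {ι s, u, v, z})
    (hform : SameForm (ι s) (ι φ) (ι a) (ι b) u v z) :
    ∃ (Q : MvPolynomial (Fin (N + 1)) ℂ) (d : ℕ), Q.IsHomogeneous d ∧
      MvPolynomial.aeval ξ Q ≠ 0 ∧ (Zop ξ Q).Nonempty ∧ RestrictionZero (Zop ξ Q) 2 :=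
  final_six ξ hY hpg ι s a b φ u v z ℓ H hgen hle hform
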